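import Pool.Agent.R537.QN.Aff

/-!
# Affine polynomial projection is `∃ℝ`-hard, even for `f = - x₀⁴`

Sketch of the proof.  A system of constraints `x = 1`, `x + y = z`, `x y = z` is written with small
solutions only; all variables, and those of a chain `e_0 = 1/8`, `e_{j+1} = e_j²`, are bounded by
slack variables.  After homogenization the equations are integer quadratic forms `g_1, …, g_m`, and
`h` is the product of the homogenizing variable and of the last variable of the chain.  By a gap
theorem for such systems, the system is solvable if and only if `∑ g_l(p)² < h(p)²` for some real
point `p`, and then there is even a point with `g_l(p) = 0` for all `l` and `h(p) = 1`.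

Let `g = ∑ g_l² - h²`, an integer quartic form, and `f = - x₀⁴`.  If `p` is such a point then
`f(x) = g(A x)` for the matrix `A` whose first column is `p` and whose other columns vanish.
Conversely, if `f(x) = g(A x + b)` for all `x`, then `g(A e₀ + b) = -1 < 0`, so the system is
solvable.
-/

namespace Pool.Agent.Results.MP_ca1301_lc.AffineProjectionOntoPower

open Pool.Agent.NPC Pool.Agent.NPC.ER Pool.Agent.NPC.H612 Pool.Agent.NPC.R537QN

/-- The affine polynomial projection problem is `∃ℝ`-hard, and it remains so for the instances
in which `f = - x₀⁴` and all terms of `g` have degree `4`. -/
theorem result : ERHard (lang AffineProjection) ∧ ERHardWithin PowerInstance AffineProjection :=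
  ⟨power_hard.toERHard, power_hard⟩

end Pool.Agent.Results.MP_ca1301_lc.AffineProjectionOntoPower
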